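import Pool.Agent.N325.DD.UB

/-!
# Upper bounds of the limit by finite tables: the table and its value

(project DD3 of helper325; this part by helper285)
-/

set_option autoImplicit false

namespace Pool.Agent.N285.DD

open Finset Pool.Agent.N325.DD

theorem chkUT_cons {a b : ℕ} {t : EntU} {T : List EntU} (h : chkUT a b (t :: T) = true) :
    a = t.1 ∧ t.1 < t.2.1 ∧ chkU t = true ∧ chkUT t.2.1 b T = true := by
  unfold chkUT at h
  rw [Bool.and_eq_true, Bool.and_eq_true, Bool.and_eq_true] at h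
  exact ⟨Nat.eq_of_beq_eq_true h.1, Nat.le_of_ble_eq_true h.2.1, h.2.2.1, h.2.2.2⟩

theorem chkU_imp {t : EntU} (h : chkU t = true) : t.2.1 ≤ 2 ^ t.2.2.2.length ∧
    chkH t.2.1 t.2.2.2 = true ∧ leL 15 t.2.2.2 = true ∧ t.2.2.2.length ≤ 31 ∧
    dg (tabN 30 t.2.2.2) 0 ≤ t.2.2.1 := by
  unfold chkU at h
  rw [Bool.and_eq_true, Bool.and_eq_true, Bool.and_eq_true, Bool.and_eq_true] at h
  exact ⟨Nat.le_of_ble_eq_true h.1, h.2.1, h.2.2.1, Nat.le_of_ble_eq_true h.2.2.2.1,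
    Nat.le_of_ble_eq_true h.2.2.2.2⟩

theorem chkUT_le (T : List EntU) (a b : ℕ) (h : chkUT a b T = true) : a ≤ b := by
  induction T generalizing a with
  | nil =>
    unfold chkUT at h
    exact (Nat.eq_of_beq_eq_true h).le
  | cons t T ih =>
    obtain ⟨h1, h2, _, h4⟩ := chkUT_cons h
    have := ih _ h4
    omega

/-- **The table**: its entries are upper bounds. -/
theorem tableU_ok
    (hgrid : ∀ (hi : ℕ) (hs : List ℕ), hi ≤ 2 ^ hs.length → chkH hi hs = true →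
      ∀ q, q < hi → mx (W 4 q) ≤ V hs 0)
    (hV : ∀ (hs : List ℕ), hs.length ≤ 31 → leL 15 hs = true →
      ∀ s, V hs s ≤ dg (tabN 30 hs) s)
    (T : List EntU) (a b : ℕ) (h : chkUT a b T = true) (q : ℕ) (h1 : a ≤ q) (h2 : q < b) :
    mx (W 4 q) ≤ gU T q := by
  induction T generalizing a with
  | nil =>
    unfold chkUT at h
    have := Nat.eq_of_beq_eq_true h
    omega
  | cons t T ih =>
    obtain ⟨e1, e2, e3, e4⟩ := chkUT_cons h
    unfold gU
    by_cases hq : q < t.2.1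
    · rw [if_pos ⟨by omega, hq⟩]
      obtain ⟨f1, f2, f3, f4, f5⟩ := chkU_imp e3
      exact (hgrid _ _ f1 f2 q hq).trans ((hV _ f4 f3 0).trans f5)
    · rw [if_neg (by omega)]
      exact ih _ e4 (by omega)

theorem gU_zero (T : List EntU) (a b : ℕ) (h : chkUT a b T = true) (q : ℕ) (hq : b ≤ q) :
    gU T q = 0 := by
  induction T generalizing a with
  | nil => rfl
  | cons t T ih =>
    obtain ⟨e1, e2, e3, e4⟩ := chkUT_cons h
    have e5 := chkUT_le T _ _ e4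
    unfold gU
    rw [if_neg (by omega)]
    exact ih _ e4

theorem tele (lo hi : ℕ) (h1 : 1 ≤ lo) (h2 : lo ≤ hi) :
    ∑ q ∈ Finset.Ico lo hi, 1 / ((q : ℝ) * (q + 1)) = 1 / (lo : ℝ) - 1 / (hi : ℝ) := by
  induction hi, h2 using Nat.le_induction with
  | base => simp
  | succ m hm ih =>
    rw [Finset.sum_Ico_succ_top hm, ih]
    have hm0 : (0 : ℝ) < m := by exact_mod_cast lt_of_lt_of_le h1 hm
    have hl0 : (0 : ℝ) < lo := by exact_mod_cast h1
    push_cast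
    field_simp
    ring

theorem le_val (M lo hi : ℕ) (h1 : 1 ≤ lo) (h2 : lo ≤ hi) :
    M * (1 / (lo : ℝ) - 1 / (hi : ℝ)) ≤ (((M / lo + 1 - M / hi : ℕ)) : ℝ) := by
  have hl0 : (0 : ℝ) < lo := by exact_mod_cast h1
  have hle : M / hi ≤ M / lo := Nat.div_le_div_left h2 h1
  rw [Nat.cast_sub (by omega)]
  have h3 : ((M / hi : ℕ) : ℝ) ≤ (M : ℝ) / hi := Nat.cast_div_le
  have h4 : (M : ℝ) / lo < ((M / lo + 1 : ℕ) : ℝ) := by
    rw [div_lt_iff₀ hl0]
    have h5 : M < lo * (M / lo + 1) := Nat.lt_mul_div_succ M h1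
    have h6 : (M : ℝ) < lo * ((M / lo + 1 : ℕ) : ℝ) := by exact_mod_cast h5
    linarith
  have h7 : (M : ℝ) * (1 / (lo : ℝ) - 1 / (hi : ℝ)) = (M : ℝ) / lo - (M : ℝ) / hi := by ring
  rw [h7]
  linarith

theorem tableU_sum (M : ℕ) (T : List EntU) (a b : ℕ) (ha : 1 ≤ a) (h : chkUT a b T = true)
    (X : ℕ) : M * ∑ q ∈ Finset.Icc 1 X, (gU T q : ℝ) / ((q : ℝ) * (q + 1)) ≤
      ((vU M T : ℕ) : ℝ) := by
  induction T generalizing a with
  | nil =>
    unfold gU vU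
    simp
  | cons t T ih =>
    obtain ⟨e1, e2, _, e4⟩ := chkUT_cons h
    have ih' := ih t.2.1 (by omega) e4
    have hM0 : (0 : ℝ) ≤ M := Nat.cast_nonneg _
    have hterm : ∀ q ∈ Finset.Icc 1 X, (gU (t :: T) q : ℝ) / ((q : ℝ) * (q + 1)) ≤
        (if t.1 ≤ q ∧ q < t.2.1 then (t.2.2.1 : ℝ) * (1 / ((q : ℝ) * (q + 1))) else 0) +
          (gU T q : ℝ) / ((q : ℝ) * (q + 1)) := by
      intro q _
      have hpos : (0 : ℝ) ≤ (gU T q : ℝ) / ((q : ℝ) * (q + 1)) := by positivity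
      rw [show gU (t :: T) q = if t.1 ≤ q ∧ q < t.2.1 then t.2.2.1 else gU T q from rfl]
      by_cases hq : t.1 ≤ q ∧ q < t.2.1
      · rw [if_pos hq, if_pos hq]
        have : (t.2.2.1 : ℝ) / ((q : ℝ) * (q + 1)) = (t.2.2.1 : ℝ) * (1 / ((q : ℝ) * (q + 1))) := by
          ring
        linarith
      · rw [if_neg hq, if_neg hq, zero_add]
    have hfirst : ∑ q ∈ Finset.Icc 1 X,
        (if t.1 ≤ q ∧ q < t.2.1 then (t.2.2.1 : ℝ) * (1 / ((q : ℝ) * (q + 1))) else 0) ≤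
        (t.2.2.1 : ℝ) * (1 / (t.1 : ℝ) - 1 / (t.2.1 : ℝ)) := by
      rw [← tele t.1 t.2.1 (by omega) e2.le, Finset.mul_sum, ← Finset.sum_filter]
      refine Finset.sum_le_sum_of_subset_of_nonneg ?_ fun q _ _ => by positivity
      intro q hq
      rw [Finset.mem_filter] at hq
      rw [Finset.mem_Ico]
      exact hq.2
    have hval := le_val M t.1 t.2.1 (by omega) e2.le
    rw [show vU M (t :: T) = t.2.2.1 * (M / t.1 + 1 - M / t.2.1) + vU M T from rfl, Nat.cast_add,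
      Nat.cast_mul]
    have hs := Finset.sum_le_sum hterm
    rw [Finset.sum_add_distrib] at hs
    have h1 := mul_le_mul_of_nonneg_left (hs.trans (add_le_add_left hfirst _)) hM0
    have h2 : (t.2.2.1 : ℝ) * (M * (1 / (t.1 : ℝ) - 1 / (t.2.1 : ℝ))) ≤
        (t.2.2.1 : ℝ) * (((M / t.1 + 1 - M / t.2.1 : ℕ)) : ℝ) :=
      mul_le_mul_of_nonneg_left hval (Nat.cast_nonneg _)
    rw [mul_add] at h1
    have h3 : (M : ℝ) * ((t.2.2.1 : ℝ) * (1 / (t.1 : ℝ) - 1 / (t.2.1 : ℝ))) =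
        (t.2.2.1 : ℝ) * (M * (1 / (t.1 : ℝ) - 1 / (t.2.1 : ℝ))) := by ring
    rw [h3] at h1
    linarith

/-- **The table**: its value. -/
theorem tableU_val (M : ℕ) (hM : 0 < M) (T : List EntU) (a b : ℕ) (ha : 1 ≤ a)
    (h : chkUT a b T = true) (X : ℕ) :
    ∑ q ∈ Finset.Icc 1 X, (gU T q : ℝ) / ((q : ℝ) * (q + 1)) ≤ ((vU M T : ℕ) : ℝ) / M := by
  have hM' : (0 : ℝ) < M := by exact_mod_cast hM
  rw [le_div_iff₀ hM', mul_comm]
  exact tableU_sum M T a b ha h X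

end Pool.Agent.N285.DD
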